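import Pool.Agent.W645.WV.Stm

/-!
Project WV (owner helper645): the square function form of the main estimate,
`S_PU1 → S_HIGH → S_ZERO → S_WM → S_MAIN2`.
-/

set_option autoImplicit false

open MeasureTheory Set Complex Filter Topology
open scoped ENNReal

namespace Pool.Agent.W565.WV

open Pool.Agent.W645.WV

/-! ### the weighted Hoelder inequality for infinite sums -/

theorem holder_sum (q : ℝ) (hq : 1 ≤ q) (b f : ℕ → ℝ≥0∞) :
    (∑' k, b k * f k) ^ q ≤ (∑' k, b k) ^ (q - 1) * ∑' k, b k * f k ^ q := by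
  have hq0 : 0 < q := by linarith
  have hfin : ∀ s : Finset ℕ, (∑ k ∈ s, b k * f k) ^ q ≤
      (∑' k, b k) ^ (q - 1) * ∑' k, b k * f k ^ q := by
    intro s
    have h1 := ENNReal.inner_le_weight_mul_Lp_of_nonneg s hq b f
    have h2 := ENNReal.rpow_le_rpow h1 hq0.le
    rw [ENNReal.mul_rpow_of_nonneg _ _ hq0.le, ← ENNReal.rpow_mul, ← ENNReal.rpow_mul,
      inv_mul_cancel₀ hq0.ne', ENNReal.rpow_one,
      show (1 - q⁻¹) * q = q - 1 by field_simp] at h2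
    refine h2.trans (mul_le_mul' (ENNReal.rpow_le_rpow (ENNReal.sum_le_tsum s) (by linarith))
      (ENNReal.sum_le_tsum s))
  have ht : Tendsto (fun s : Finset ℕ => (∑ k ∈ s, b k * f k) ^ q) atTop
      (𝓝 ((∑' k, b k * f k) ^ q)) :=
    (ENNReal.continuous_rpow_const.tendsto _).comp ENNReal.summable.hasSum
  exact le_of_tendsto ht (Eventually.of_forall hfin)

/-! ### the pieces -/

/-- the multipliers of the pieces -/
noncomputable def mm (ψ₀ ψ : ℝ → ℂ) : ℕ → ℝ → ℂ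
  | 0 => ψ₀
  | k + 1 => fun y => ψ (((4 : ℝ) ^ (k + 1))⁻¹ * y)

theorem mm_sum {ψ₀ ψ ψ' : ℝ → ℂ} {N : ℝ} (h : PU ψ₀ ψ ψ' N) (K : ℕ) (y : ℝ) (hy : 0 ≤ y) :
    ∑ k ∈ Finset.range (K + 1), mm ψ₀ ψ k y = ψ₀ (((4 : ℝ) ^ K)⁻¹ * y) := by
  induction K with
  | zero => simp [mm]
  | succ K ih =>
    rw [Finset.sum_range_succ, ih]
    have h8 := h.2.2.2.2.2.2.2.1
    show ψ₀ (((4 : ℝ) ^ K)⁻¹ * y) + ψ (((4 : ℝ) ^ (K + 1))⁻¹ * y) = _
    rw [h8 _ (by positivity)]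
    have e : (4 : ℝ) * (((4 : ℝ) ^ (K + 1))⁻¹ * y) = ((4 : ℝ) ^ K)⁻¹ * y := by
      rw [pow_succ]
      field_simp
    rw [e]
    ring

theorem psi_bound {ψ₀ ψ ψ' : ℝ → ℂ} {N : ℝ} (h : PU ψ₀ ψ ψ' N) (y : ℝ) : ‖ψ y‖ ≤ 2 := by
  obtain ⟨h1, h2, h3, h4, h5, h6, h7, h8, h9, h10⟩ := h
  by_cases hy : 0 ≤ y
  · rw [h8 y hy]
    have a1 := h4 y
    have a2 := h4 (4 * y)
    have a3 := norm_sub_le (ψ₀ y) (ψ₀ (4 * y))
    linarith
  · have : ψ y = 0 := by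
      by_contra hne
      have := (h7 y hne).1
      linarith
    rw [this]
    simp

theorem mm_bound {ψ₀ ψ ψ' : ℝ → ℂ} {N : ℝ} (h : PU ψ₀ ψ ψ' N) (k : ℕ) (y : ℝ) :
    ‖mm ψ₀ ψ k y‖ ≤ 2 := by
  cases k with
  | zero => exact (h.2.2.2.1 y).trans (by norm_num)
  | succ k => exact psi_bound h _

theorem mm_cont {ψ₀ ψ ψ' : ℝ → ℂ} {N : ℝ} (h : PU ψ₀ ψ ψ' N) (k : ℕ) :
    Continuous (mm ψ₀ ψ k) := by
  cases k with
  | zero => exact h.2.1.continuous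
  | succ k => exact h.2.2.2.2.2.1.1.continuous.comp (continuous_const.mul continuous_id)

/-- the symbol of the solution -/
noncomputable def sy {n : ℕ} (u₀ u₁ : (Fin n → ℝ) → ℂ) (a : Fin n → ℝ) (t : ℝ)
    (ξ : Fin n → ℝ) : ℂ :=
  ((Real.cos (2 * Real.pi * t * Real.sqrt (H a ξ)) : ℝ) : ℂ) * FT u₀ ξ +
    ((sn t (H a ξ) : ℝ) : ℂ) * FT u₁ ξ

/-- the exponential -/
noncomputable def ex {n : ℕ} (x ξ : Fin n → ℝ) : ℂ :=
  cexp (2 * (Real.pi : ℂ) * I * ((∑ j, x j * ξ j : ℝ) : ℂ))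

theorem ex_norm {n : ℕ} (x ξ : Fin n → ℝ) : ‖ex x ξ‖ = 1 := by
  unfold ex
  have : 2 * (Real.pi : ℂ) * I * ((∑ j, x j * ξ j : ℝ) : ℂ) =
      ((2 * Real.pi * ∑ j, x j * ξ j : ℝ) : ℂ) * I := by
    push_cast
    ring
  rw [this, Complex.norm_exp_ofReal_mul_I]

theorem ex_cont {n : ℕ} (x : Fin n → ℝ) : Continuous (ex x) := by
  unfold ex
  fun_prop

theorem H_cont {n : ℕ} (a : Fin n → ℝ) : Continuous (H a) := by
  unfold H
  fun_prop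

theorem H_nonneg {n : ℕ} {a : Fin n → ℝ} (ha : a ∈ box n) (ξ : Fin n → ℝ) : 0 ≤ H a ξ := by
  unfold H
  refine Finset.sum_nonneg (fun j _ => mul_nonneg ?_ (sq_nonneg _))
  have := ha.1 j
  simp only at this
  linarith

theorem W_eq {n : ℕ} (u₀ u₁ : (Fin n → ℝ) → ℂ) (a : Fin n → ℝ) (t : ℝ) (x : Fin n → ℝ) :
    W u₀ u₁ a t x = ∫ ξ, sy u₀ u₁ a t ξ * ex x ξ := rfl

theorem Wm_eq {n : ℕ} (m : ℝ → ℂ) (u₀ u₁ : (Fin n → ℝ) → ℂ) (a : Fin n → ℝ) (t : ℝ)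
    (x : Fin n → ℝ) :
    Wm m u₀ u₁ a t x = ∫ ξ, m (H a ξ) * (sy u₀ u₁ a t ξ * ex x ξ) := by
  show (∫ ξ, m (H a ξ) * sy u₀ u₁ a t ξ * ex x ξ) = _
  simp only [mul_assoc]

theorem sy_ex_int {n : ℕ} {u₀ u₁ : (Fin n → ℝ) → ℂ} {a : Fin n → ℝ} {t : ℝ}
    (hi : Integrable (sy u₀ u₁ a t)) (x : Fin n → ℝ) :
    Integrable (fun ξ => sy u₀ u₁ a t ξ * ex x ξ) :=
  hi.mul_bdd (c := 1) (ex_cont x).aestronglyMeasurable
    (Eventually.of_forall (fun ξ => (ex_norm x ξ).le))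

theorem m_sy_ex_int {n : ℕ} {u₀ u₁ : (Fin n → ℝ) → ℂ} {a : Fin n → ℝ} {t : ℝ}
    (hi : Integrable (sy u₀ u₁ a t)) (x : Fin n → ℝ) {m : ℝ → ℂ} (hm : Continuous m)
    (hb : ∀ y, ‖m y‖ ≤ 2) :
    Integrable (fun ξ => m (H a ξ) * (sy u₀ u₁ a t ξ * ex x ξ)) :=
  (sy_ex_int hi x).bdd_mul (c := 2) (hm.comp (H_cont a)).aestronglyMeasurable
    (Eventually.of_forall (fun _ => hb _))

theorem W_le {ψ₀ ψ ψ' : ℝ → ℂ} {N : ℝ} (h : PU ψ₀ ψ ψ' N) {n : ℕ} {u₀ u₁ : (Fin n → ℝ) → ℂ}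
    {a : Fin n → ℝ} (ha : a ∈ box n) {t : ℝ} (hi : Integrable (sy u₀ u₁ a t)) (x : Fin n → ℝ) :
    ‖W u₀ u₁ a t x‖ₑ ≤ ∑' k, ‖Wm (mm ψ₀ ψ k) u₀ u₁ a t x‖ₑ := by
  have hpart : ∀ K : ℕ, ∑ k ∈ Finset.range (K + 1), Wm (mm ψ₀ ψ k) u₀ u₁ a t x =
      ∫ ξ, ψ₀ (((4 : ℝ) ^ K)⁻¹ * H a ξ) * (sy u₀ u₁ a t ξ * ex x ξ) := by
    intro K
    simp only [Wm_eq]
    rw [← integral_finsetSum _
      (fun k _ => m_sy_ex_int hi x (mm_cont h k) (mm_bound h k))]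
    refine integral_congr_ae (Eventually.of_forall (fun ξ => ?_))
    simp only
    rw [← Finset.sum_mul, mm_sum h K _ (H_nonneg ha ξ)]
  have hlim : Tendsto (fun K : ℕ => ∑ k ∈ Finset.range (K + 1), Wm (mm ψ₀ ψ k) u₀ u₁ a t x)
      atTop (𝓝 (W u₀ u₁ a t x)) := by
    rw [W_eq]
    simp only [hpart]
    refine tendsto_integral_of_dominated_convergence (fun ξ => ‖sy u₀ u₁ a t ξ * ex x ξ‖)
      (fun K => ?_) (sy_ex_int hi x).norm (fun K => ?_) ?_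
    · have hc : Continuous (fun y : ℝ => ψ₀ (((4 : ℝ) ^ K)⁻¹ * y)) :=
        h.2.1.continuous.comp (continuous_const.mul continuous_id)
      exact (m_sy_ex_int hi x hc
        (fun y => (h.2.2.2.1 _).trans (by norm_num))).aestronglyMeasurable
    · refine Eventually.of_forall (fun ξ => ?_)
      rw [norm_mul]
      exact mul_le_of_le_one_left (norm_nonneg _) (h.2.2.2.1 _)
    · refine Eventually.of_forall (fun ξ => ?_)
      refine tendsto_const_nhds.congr' ?_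
      have hH := H_nonneg ha ξ
      obtain ⟨K₀, hK₀⟩ := pow_unbounded_of_one_lt (H a ξ) (show (1 : ℝ) < 4 by norm_num)
      filter_upwards [eventually_ge_atTop K₀] with K hK
      have h1 : H a ξ ≤ (4 : ℝ) ^ K :=
        hK₀.le.trans (pow_le_pow_right₀ (by norm_num) hK)
      rw [h.2.2.2.2.1 _ (by positivity), one_mul]
      rw [inv_mul_le_iff₀ (by positivity)]
      linarith
  refine le_of_tendsto hlim.enorm (Eventually.of_forall (fun K => ?_))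
  exact (enorm_sum_le _ _).trans (ENNReal.sum_le_tsum _)

theorem Wm_meas (hWM : S_WM) {ψ₀ ψ ψ' : ℝ → ℂ} {N : ℝ} (h : PU ψ₀ ψ ψ' N) (n : ℕ)
    (u₀ u₁ : SchwartzMap (Fin n → ℝ) ℂ) (k : ℕ) :
    Measurable (fun q : ((Fin n → ℝ) × ℝ) × (Fin n → ℝ) =>
      Wm (mm ψ₀ ψ k) (⇑u₀) (⇑u₁) q.1.1 q.1.2 q.2) := by
  have hm : Measurable (fun y => (1 / 2 : ℂ) * mm ψ₀ ψ k y) :=
    (continuous_const.mul (mm_cont h k)).measurable
  have hb : ∀ y, ‖(1 / 2 : ℂ) * mm ψ₀ ψ k y‖ ≤ 1 := by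
    intro y
    rw [norm_mul]
    have := mm_bound h k y
    have h2 : ‖(1 / 2 : ℂ)‖ = 1 / 2 := by norm_num
    rw [h2]
    linarith
  have h1 := (hWM n u₀ u₁ _ hm hb).1
  have h2 := h1.const_mul (2 : ℂ)
  have e : (fun q : ((Fin n → ℝ) × ℝ) × (Fin n → ℝ) =>
      Wm (mm ψ₀ ψ k) (⇑u₀) (⇑u₁) q.1.1 q.1.2 q.2) =
      fun q => 2 * Wm (fun y => (1 / 2 : ℂ) * mm ψ₀ ψ k y) (⇑u₀) (⇑u₁) q.1.1 q.1.2 q.2 := by
    funext q
    rw [Wm_eq, Wm_eq, ← integral_const_mul]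
    refine integral_congr_ae (Eventually.of_forall (fun ξ => ?_))
    simp only
    ring
  rw [e]
  exact h2

/-! ### the constant -/

/-- the weights -/
noncomputable def bb (s : ℝ) (k : ℕ) : ℝ≥0∞ := ENNReal.ofReal (((2 : ℝ) ^ (-(s / 2))) ^ k)

theorem rho_pos (s : ℝ) : (0 : ℝ) < (2 : ℝ) ^ (-(s / 2)) := Real.rpow_pos_of_pos (by norm_num) _

theorem rho_lt {s : ℝ} (hs : 0 < s) : (2 : ℝ) ^ (-(s / 2)) < 1 :=
  Real.rpow_lt_one_of_one_lt_of_neg (by norm_num) (by linarith)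

theorem bb_sum {s : ℝ} (hs : 0 < s) : ∑' k, bb s k ≠ ⊤ := by
  unfold bb
  exact (summable_geometric_of_lt_one (rho_pos s).le (rho_lt hs)).tsum_ofReal_ne_top

theorem bb_wsum {s : ℝ} (hs : 0 < s) (n : ℕ) (C : ℝ) :
    ∑' k : ℕ, ENNReal.ofReal (C * ((1 + (k : ℝ)) ^ n * ((2 : ℝ) ^ (-(s / 2))) ^ k)) ≠ ⊤ := by
  refine (Summable.mul_left C ?_).tsum_ofReal_ne_top
  have h1 := summable_pow_mul_geometric_of_norm_lt_one n
    (r := (2 : ℝ) ^ (-(s / 2))) (by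
      rw [Real.norm_eq_abs, abs_of_pos (rho_pos s)]
      exact rho_lt hs)
  have h2 := (summable_nat_add_iff 1).mpr h1
  have h3 := h2.mul_left (((2 : ℝ) ^ (-(s / 2)))⁻¹)
  refine h3.congr (fun k => ?_)
  have := (rho_pos s).ne'
  push_cast
  rw [pow_succ, add_comm (k : ℝ) 1]
  field_simp

theorem bb_bound {s p : ℝ} (hs : 0 < s) (hp : 2 ≤ p) (k : ℕ) {C X : ℝ} (hC : 0 ≤ C)
    (hX : 0 ≤ X) :
    bb s k * ((bb s k)⁻¹ ^ p * ENNReal.ofReal (C * ((2 : ℝ) ^ (-((k : ℝ) * (p * s))) * X))) ≤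
      ENNReal.ofReal (C * (X * ((2 : ℝ) ^ (-(s / 2))) ^ k)) := by
  set y : ℝ := ((2 : ℝ) ^ (-(s / 2))) ^ k with hy
  have hy0 : 0 < y := pow_pos (rho_pos s) k
  have hy1 : y ≤ 1 := pow_le_one₀ (rho_pos s).le (rho_lt hs).le
  have e1 : (2 : ℝ) ^ (-((k : ℝ) * (p * s))) = y ^ (2 * p) := by
    rw [hy, ← Real.rpow_natCast, ← Real.rpow_mul (rho_pos s).le, ← Real.rpow_mul (by norm_num)]
    congr 1
    ring
  have e2 : bb s k = ENNReal.ofReal y := rfl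
  rw [e1, e2, ← ENNReal.ofReal_inv_of_pos hy0,
    ENNReal.ofReal_rpow_of_pos (inv_pos.mpr hy0),
    ← ENNReal.ofReal_mul (Real.rpow_nonneg (inv_pos.mpr hy0).le _),
    ← ENNReal.ofReal_mul hy0.le]
  refine ENNReal.ofReal_le_ofReal ?_
  have e3 : y⁻¹ ^ p * y ^ (2 * p) = y ^ p := by
    rw [Real.inv_rpow hy0.le, ← Real.rpow_neg hy0.le, ← Real.rpow_add hy0]
    congr 1
    ring
  have e4 : y ^ p ≤ 1 := Real.rpow_le_one hy0.le hy1 (by linarith)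
  have e5 : y * (y⁻¹ ^ p * (C * (y ^ (2 * p) * X))) = C * X * y * (y⁻¹ ^ p * y ^ (2 * p)) := by
    ring
  rw [e5, e3]
  have : C * X * y * y ^ p ≤ C * X * y * 1 :=
    mul_le_mul_of_nonneg_left e4 (by positivity)
  linarith

/-! ### abstract summation -/

theorem sum_pieces {Ω X : Type} [MeasurableSpace Ω] [MeasurableSpace X]
    (μ : Measure Ω) (ν : Measure X) (τ : Measure ℝ) [SFinite μ] [SFinite ν] [SFinite τ]
    (U : ℕ → Ω → ℝ → X → ℝ≥0∞) (V : Ω → ℝ → X → ℝ≥0∞)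
    (hU : ∀ k, Measurable (fun q : (Ω × ℝ) × X => U k q.1.1 q.1.2 q.2))
    (hV : ∀ᵐ a ∂μ, ∀ᵐ t ∂τ, ∀ x, V a t x ≤ ∑' k, U k a t x)
    (p : ℝ) (hp : 2 ≤ p) (b : ℕ → ℝ≥0∞) (hb0 : ∀ k, b k ≠ 0) (hbt : ∀ k, b k ≠ ⊤) :
    ∫⁻ a, ∫⁻ x, (∫⁻ t, V a t x ^ (2 : ℝ) ∂τ) ^ (p / 2) ∂ν ∂μ ≤
      (∑' k, b k) ^ (p - 1) * ∑' k, b k * ((b k)⁻¹ ^ p *
        ∫⁻ a, ∫⁻ x, (∫⁻ t, U k a t x ^ (2 : ℝ) ∂τ) ^ (p / 2) ∂ν ∂μ) := by
  set B := ∑' k, b k with hB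
  -- measurability
  have hU2 : ∀ k, Measurable (fun q : (Ω × X) × ℝ => U k q.1.1 q.2 q.1.2 ^ (2 : ℝ)) := by
    intro k
    have hr : Measurable (fun q : (Ω × X) × ℝ => ((q.1.1, q.2), q.1.2)) := by fun_prop
    exact ((hU k).comp hr).pow_const _
  have hA : ∀ k, Measurable (fun q : Ω × X => ∫⁻ t, U k q.1 t q.2 ^ (2 : ℝ) ∂τ) :=
    fun k => (hU2 k).lintegral_prod_right'
  have hA2 : ∀ k, Measurable (fun q : Ω × X => (∫⁻ t, U k q.1 t q.2 ^ (2 : ℝ) ∂τ) ^ (p / 2)) :=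
    fun k => (hA k).pow_const _
  have hA3 : ∀ k, Measurable (fun a : Ω => ∫⁻ x, (∫⁻ t, U k a t x ^ (2 : ℝ) ∂τ) ^ (p / 2) ∂ν) :=
    fun k => (hA2 k).lintegral_prod_right'
  -- pointwise
  have hpt : ∀ᵐ a ∂μ, ∀ x, (∫⁻ t, V a t x ^ (2 : ℝ) ∂τ) ^ (p / 2) ≤
      B ^ (p - 1) * ∑' k, b k * ((b k)⁻¹ ^ p * (∫⁻ t, U k a t x ^ (2 : ℝ) ∂τ) ^ (p / 2)) := by
    filter_upwards [hV] with a ha
    intro x
    have s1 : ∫⁻ t, V a t x ^ (2 : ℝ) ∂τ ≤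
        B * ∑' k, b k * ((b k)⁻¹ ^ (2 : ℝ) * ∫⁻ t, U k a t x ^ (2 : ℝ) ∂τ) := by
      calc ∫⁻ t, V a t x ^ (2 : ℝ) ∂τ ≤
          ∫⁻ t, B * ∑' k, b k * ((b k)⁻¹ ^ (2 : ℝ) * U k a t x ^ (2 : ℝ)) ∂τ := by
            refine lintegral_mono_ae ?_
            filter_upwards [ha] with t ht
            have h1 : V a t x ≤ ∑' k, b k * ((b k)⁻¹ * U k a t x) := by
              refine (ht x).trans (le_of_eq ?_)
              refine tsum_congr (fun k => ?_)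
              rw [← mul_assoc, ENNReal.mul_inv_cancel (hb0 k) (hbt k), one_mul]
            refine (ENNReal.rpow_le_rpow h1 (by norm_num)).trans
              ((holder_sum 2 (by norm_num) b _).trans (le_of_eq ?_))
            rw [show (2 : ℝ) - 1 = 1 by norm_num, ENNReal.rpow_one]
            congr 1
            refine tsum_congr (fun k => ?_)
            rw [ENNReal.mul_rpow_of_nonneg _ _ (by norm_num : (0 : ℝ) ≤ 2)]
        _ = B * ∑' k, b k * ((b k)⁻¹ ^ (2 : ℝ) * ∫⁻ t, U k a t x ^ (2 : ℝ) ∂τ) := by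
            have hm : ∀ k, Measurable (fun t : ℝ => U k a t x ^ (2 : ℝ)) := fun k =>
              (hU2 k).comp (measurable_prodMk_left (x := ((a, x) : Ω × X)))
            rw [lintegral_const_mul _ (Measurable.tsum
              (fun k => ((hm k).const_mul _).const_mul _)),
              lintegral_tsum (fun k => (((hm k).const_mul _).const_mul _).aemeasurable)]
            congr 1
            refine tsum_congr (fun k => ?_)
            rw [lintegral_const_mul _ ((hm k).const_mul _), lintegral_const_mul _ (hm k)]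
    have hp2 : (1 : ℝ) ≤ p / 2 := by linarith
    refine (ENNReal.rpow_le_rpow s1 (by linarith)).trans ?_
    rw [ENNReal.mul_rpow_of_nonneg _ _ (by linarith : (0 : ℝ) ≤ p / 2)]
    refine (mul_le_mul' le_rfl (holder_sum (p / 2) hp2 b _)).trans (le_of_eq ?_)
    rw [← mul_assoc, ← ENNReal.rpow_add_of_nonneg _ _ (by linarith) (by linarith),
      show p / 2 + (p / 2 - 1) = p - 1 by ring]
    congr 1
    refine tsum_congr (fun k => ?_)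
    rw [ENNReal.mul_rpow_of_nonneg _ _ (by linarith : (0 : ℝ) ≤ p / 2), ← ENNReal.rpow_mul,
      show (2 : ℝ) * (p / 2) = p by ring]
  calc ∫⁻ a, ∫⁻ x, (∫⁻ t, V a t x ^ (2 : ℝ) ∂τ) ^ (p / 2) ∂ν ∂μ ≤
      ∫⁻ a, ∫⁻ x, B ^ (p - 1) * ∑' k, b k * ((b k)⁻¹ ^ p *
        (∫⁻ t, U k a t x ^ (2 : ℝ) ∂τ) ^ (p / 2)) ∂ν ∂μ := by
        refine lintegral_mono_ae ?_
        filter_upwards [hpt] with a ha
        exact lintegral_mono (fun x => ha x)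
    _ = _ := by
        have hx : ∀ a k, Measurable (fun x : X => (∫⁻ t, U k a t x ^ (2 : ℝ) ∂τ) ^ (p / 2)) :=
          fun a k => (hA2 k).comp measurable_prodMk_left
        have e1 : ∀ a, ∫⁻ x, B ^ (p - 1) * ∑' k, b k * ((b k)⁻¹ ^ p *
            (∫⁻ t, U k a t x ^ (2 : ℝ) ∂τ) ^ (p / 2)) ∂ν =
            B ^ (p - 1) * ∑' k, b k * ((b k)⁻¹ ^ p *
              ∫⁻ x, (∫⁻ t, U k a t x ^ (2 : ℝ) ∂τ) ^ (p / 2) ∂ν) := by
          intro a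
          rw [lintegral_const_mul _ (Measurable.tsum
              (fun k => ((hx a k).const_mul _).const_mul _)),
              lintegral_tsum (fun k => (((hx a k).const_mul _).const_mul _).aemeasurable)]
          congr 1
          refine tsum_congr (fun k => ?_)
          rw [lintegral_const_mul _ ((hx a k).const_mul _), lintegral_const_mul _ (hx a k)]
        simp only [e1]
        rw [lintegral_const_mul _ (Measurable.tsum
              (fun k => ((hA3 k).const_mul _).const_mul _)),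
              lintegral_tsum (fun k => (((hA3 k).const_mul _).const_mul _).aemeasurable)]
        congr 1
        refine tsum_congr (fun k => ?_)
        rw [lintegral_const_mul _ ((hA3 k).const_mul _), lintegral_const_mul _ (hA3 k)]

/-- MAIN2. -/
theorem main2 : S_PU1 → S_HIGH → S_ZERO → S_WM → S_MAIN2 := by
  intro hPU hHI hZE hWM n p s hp2 hp4 hs
  obtain ⟨ψ₀, ψ, ψ', N, h⟩ := hPU
  obtain ⟨C₁, hC₁, hH⟩ := hHI ψ₀ ψ ψ' N h n p s hp2 hp4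
  obtain ⟨C₀, hC₀, hZ⟩ := hZE ψ₀ ψ ψ' N h n p s hp2 hp4
  set C := C₀ + C₁ with hCdef
  have hC : 0 < C := by positivity
  set B := ∑' k, bb s k with hB
  set S : ℝ≥0∞ := ∑' k : ℕ, ENNReal.ofReal (C * ((1 + (k : ℝ)) ^ n * ((2 : ℝ) ^ (-(s / 2))) ^ k))
    with hS
  have hBt : B ≠ ⊤ := bb_sum hs
  have hSt : S ≠ ⊤ := bb_wsum hs n C
  have hKt : B ^ (p - 1) * S ≠ ⊤ :=
    ENNReal.mul_ne_top (ENNReal.rpow_ne_top_of_nonneg (by linarith) hBt) hSt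
  refine ⟨(B ^ (p - 1) * S).toReal + 1, by positivity, fun u₀ u₁ => ?_⟩
  have hpiece : ∀ k : ℕ, ∫⁻ a in box n, ∫⁻ x, (∫⁻ t in Icc (1 : ℝ) 2,
        ‖Wm (mm ψ₀ ψ k) (⇑u₀) (⇑u₁) a t x‖ₑ ^ (2 : ℝ)) ^ (p / 2) ≤
      ENNReal.ofReal (C * ((2 : ℝ) ^ (-((k : ℝ) * (p * s))) * (1 + (k : ℝ)) ^ n)) *
        DN p s (⇑u₀) (⇑u₁) := by
    intro k
    cases k with
    | zero =>
      refine (hZ u₀ u₁).2.trans (mul_le_mul' (ENNReal.ofReal_le_ofReal ?_) le_rfl)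
      simp only [Nat.cast_zero, zero_mul, neg_zero, Real.rpow_zero, add_zero, one_pow, mul_one]
      linarith
    | succ k =>
      refine (hH u₀ u₁ (k + 1) (by omega)).2.trans
        (mul_le_mul' (ENNReal.ofReal_le_ofReal ?_) le_rfl)
      refine mul_le_mul_of_nonneg_right (by linarith) ?_
      positivity
  have hmain := sum_pieces (volume.restrict (box n)) (volume : Measure (Fin n → ℝ))
    (volume.restrict (Icc (1 : ℝ) 2))
    (fun k a t x => ‖Wm (mm ψ₀ ψ k) (⇑u₀) (⇑u₁) a t x‖ₑ)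
    (fun a t x => ‖W (⇑u₀) (⇑u₁) a t x‖ₑ) (fun k => (Wm_meas hWM h n u₀ u₁ k).enorm)
    (by
      refine (ae_restrict_iff' measurableSet_Icc).mpr (Eventually.of_forall (fun a ha => ?_))
      refine (ae_restrict_iff' measurableSet_Icc).mpr (Eventually.of_forall (fun t ht => ?_))
      intro x
      exact W_le h ha ((hWM n u₀ u₁ (fun _ => 0) measurable_const
        (fun y => by simp)).2.2 a t (by linarith [ht.1])) x)
    p hp2 (bb s)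
    (fun k => (ENNReal.ofReal_pos.mpr (pow_pos (rho_pos s) k)).ne')
    (fun k => ENNReal.ofReal_ne_top)
  refine hmain.trans ?_
  have hsum : ∑' k, bb s k * ((bb s k)⁻¹ ^ p *
        ∫⁻ a in box n, ∫⁻ x, (∫⁻ t in Icc (1 : ℝ) 2,
          ‖Wm (mm ψ₀ ψ k) (⇑u₀) (⇑u₁) a t x‖ₑ ^ (2 : ℝ)) ^ (p / 2)) ≤
      S * DN p s (⇑u₀) (⇑u₁) := by
    rw [hS, ← ENNReal.tsum_mul_right]
    refine ENNReal.tsum_le_tsum (fun k => ?_)
    calc bb s k * ((bb s k)⁻¹ ^ p *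
        ∫⁻ a in box n, ∫⁻ x, (∫⁻ t in Icc (1 : ℝ) 2,
          ‖Wm (mm ψ₀ ψ k) (⇑u₀) (⇑u₁) a t x‖ₑ ^ (2 : ℝ)) ^ (p / 2)) ≤
        bb s k * ((bb s k)⁻¹ ^ p *
          (ENNReal.ofReal (C * ((2 : ℝ) ^ (-((k : ℝ) * (p * s))) * (1 + (k : ℝ)) ^ n)) *
            DN p s (⇑u₀) (⇑u₁))) :=
          mul_le_mul' le_rfl (mul_le_mul' le_rfl (hpiece k))
      _ = bb s k * ((bb s k)⁻¹ ^ p *
          ENNReal.ofReal (C * ((2 : ℝ) ^ (-((k : ℝ) * (p * s))) * (1 + (k : ℝ)) ^ n))) *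
            DN p s (⇑u₀) (⇑u₁) := by
          simp only [mul_assoc]
      _ ≤ _ := mul_le_mul' (bb_bound hs hp2 k hC.le (by positivity)) le_rfl
  refine (mul_le_mul' le_rfl hsum).trans ?_
  rw [← mul_assoc]
  refine mul_le_mul' ?_ le_rfl
  calc B ^ (p - 1) * S = ENNReal.ofReal ((B ^ (p - 1) * S).toReal) :=
        (ENNReal.ofReal_toReal hKt).symm
    _ ≤ _ := ENNReal.ofReal_le_ofReal (by linarith)

end Pool.Agent.W565.WV
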